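import Pool.Agent.MP_993212_an.H18.WSpec

/-! Room in the column of the hub, and removal of the junk. -/

set_option linter.unusedSectionVars false

namespace Pool.Agent.MP_993212_an.H18

open Matrix Polynomial Finset H16 H92 H15

namespace Last

theorem n1_add {a b : ℤ[X]} (ha : N1 a) (hb : N1 b) : N1 (a + b) := fun k => by
  rw [coeff_add]; exact add_nonneg (ha k) (hb k)

theorem n1_mul {a b : ℤ[X]} (ha : N1 a) (hb : N1 b) : N1 (a * b) := fun k => by
  rw [coeff_mul]; exact sum_nonneg fun _ _ => mul_nonneg (ha _) (hb _)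

theorem n1_sum {ι : Type} (T : Finset ι) {a : ι → ℤ[X]} (h : ∀ i, N1 (a i)) :
    N1 (∑ i ∈ T, a i) := fun k => by
  rw [finsetSum_coeff]; exact sum_nonneg fun i _ => h i k

theorem n1_pow (m : ℕ) : N1 (X ^ m) := fun k => by rw [coeff_X_pow]; split_ifs <;> simp

theorem n1_ne {a b : ℤ[X]} (ha : N1 a) (hb : N1 b) (h : a ≠ 0) : a + b ≠ 0 := fun e => h (by
  ext k
  have h1 := congrArg (coeff · k) e
  simp only [coeff_add, coeff_zero] at h1 ⊢
  have := ha k
  have := hb k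
  omega)

theorem ex_mono {a : ℤ[X]} (ha : N1 a) (h : a ≠ 0) : ∃ m, a.coeff m ≠ 0 ∧ N1 (a - X ^ m) := by
  obtain ⟨m, hm⟩ : ∃ m, a.coeff m ≠ 0 := ⟨_, leadingCoeff_ne_zero.2 h⟩
  refine ⟨m, hm, fun k => ?_⟩
  rw [coeff_sub, coeff_X_pow]
  have := ha k
  split_ifs with e
  · rw [e] at this ⊢; omega
  · omega

theorem pow_le_nz {ρ : ℝ} (h : 0 ≤ ρ) {a : ℤ[X]} {m : ℕ} (hm : a.coeff m ≠ 0) :
    ρ ^ m ≤ nz ρ a := by
  rw [nz_eq subset_rfl]
  refine le_trans ?_ (single_le_sum (f := fun k => |(a.coeff k : ℝ) * ρ ^ k|)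
    (fun _ _ => abs_nonneg _) (mem_support_iff.2 hm))
  rw [abs_mul, abs_of_nonneg (pow_nonneg h m)]
  refine le_mul_of_one_le_left (pow_nonneg h m) ?_
  exact_mod_cast Int.one_le_abs hm

theorem nz_zero (ρ : ℝ) : nz ρ 0 = 0 := by simp [nz]

theorem nz_sum {ι : Type} (ρ : ℝ) (T : Finset ι) (a : ι → ℤ[X]) :
    nz ρ (∑ i ∈ T, a i) ≤ ∑ i ∈ T, nz ρ (a i) := by
  rw [nz, map_sum]; exact nm_sum _ _

variable {I G : Type} [Fintype I] [DecidableEq I] [AddCommGroup G] [Module ℤ[X] G]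

theorem vp {N : Matrix I I ℤ[X]} (h : Hs N) : VP (1 - N) 0 := by
  refine ⟨fun _ _ _ => by simp, by ext; simp [H92.cf], ⟨N, 0, h.1, fun _ _ _ => by simp, by simp⟩, ?_⟩
  have : 1 - H92.cf 0 (1 - N) = H92.cf 0 N := by
    ext i j
    by_cases e : i = j <;> simp [H92.cf, e]
  rw [this, h.2]
  exact IsNilpotent.zero

/-- the invariant of the row pushes -/
structure Ok (ρ η : ℝ) (z : I) (L : ℕ) (dg w : I → ℤ[X]) (N₀ : Matrix I I ℤ[X]) (ξ : I → G)
    (C : ℝ) (N : Matrix I I ℤ[X]) : Prop where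
  g : ∃ g ∈ Hn I (tI L), 1 - N = g.val * (1 - N₀)
  eq : Eq0 N₀ ξ N ξ
  keep : Keep ∅ N₀ N
  row : N z = N₀ z
  hs : Hs N
  inv : Inv z N
  off : ∀ u l, u ≠ l → X ^ L ∣ N u l
  dia : ∀ i, X ^ L ∣ 1 - N i i - dg i
  cert : Cert ρ η z N fun _ => 1
  col : ∀ j, j ≠ z → nz ρ (N j z) ≤ C
  low : ∀ j, j ≠ z → Snk N₀ j ∨ N1 (N j z - w j)

variable {ρ η C : ℝ} {z : I} {L : ℕ} {dg w : I → ℤ[X]} {N₀ N : Matrix I I ℤ[X]} {ξ : I → G}

theorem Ok.entry (h : Ok ρ η z L dg w N₀ ξ C N) {j l : I} (hj : j ≠ z) (hl : l ≠ z) :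
    nz ρ (N j l) ≤ 1 - η := by
  have := h.cert.2 j hj
  simp only [mul_one] at this
  exact (single_le_sum (f := fun l => nz ρ (N j l)) (fun _ _ => nz_nonneg _)
    (mem_erase.2 ⟨hl, mem_univ l⟩)).trans this

theorem Ok.mono (h : Ok ρ η z L dg w N₀ ξ C N) {C' : ℝ} (hC : C ≤ C') :
    Ok ρ η z L dg w N₀ ξ C' N :=
  { h with col := fun j hj => (h.col j hj).trans hC }

theorem Ok.step (hP : PushStmt) (hρ : 0 ≤ ρ) (hη : 0 < η) (hC : 0 ≤ C)
    (h : Ok ρ η z L dg w N₀ ξ C N) {a : I} (ha : a ≠ z) (n : ℕ) :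
    ∃ N', Ok ρ η z L dg w N₀ ξ (C * (1 + η⁻¹)) N' ∧ (∀ u, u ≠ a → N' u = N u) ∧
      ∀ l, l ≠ z → a ≠ l → X ^ n ∣ N' a l ∧ nz ρ (N' a l) ≤ (1 - η) ^ n := by
  obtain ⟨N', c, p1, p2, p3, p4, p5, p6, -, p8, p9, p10, p11, -, p13⟩ :=
    hP I G N ξ a ((univ.erase z).erase a) n h.hs h.eq.rel' (notMem_erase _ _)
  have zS : z ∉ (univ.erase z).erase a := by simp
  obtain ⟨q1, q2, q3⟩ := p13 ρ η z _ hρ hη zS h.cert
  simp only [mul_one] at q2 q3
  have ca : c a = 0 := p6 a (notMem_erase _ _)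
  have cz : c z = 0 := p6 z zS
  have cL : ∀ l, X ^ L ∣ c l := p10 L fun l hl => h.off a l (ne_of_mem_erase hl).symm
  have e1 : 0 ≤ 1 - η := (nz_nonneg _).trans (h.entry ha ha)
  have s1 : ∑ l ∈ (univ.erase z).erase a, nz ρ (N a l) ≤ 1 := by
    have := h.cert.2 a ha
    simp only [mul_one] at this
    exact (sum_le_sum_of_subset_of_nonneg (erase_subset _ _) fun _ _ _ => nz_nonneg _).trans
      (by linarith)
  have sp : ∀ l, N1 (∑ u, c u * N u l) := fun l => n1_sum _ fun u => n1_mul (p5 u) (h.hs.1 u l)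
  have sL : ∀ l, X ^ L ∣ ∑ u, c u * N u l := fun l => dvd_sum fun u _ => (cL u).mul_right _
  have src : ∀ l, Src N l → Src N' l := fun l hl u => by
    by_cases e : u = a
    · rw [e, p4, p9 l hl]; simp [hl _]
    · rw [p3 u e, hl u]
  have snk : ∀ j, Snk N j → Snk N' j := fun j hj l => by
    by_cases e : j = a
    · rw [e, p4, p8 (e ▸ hj), ← e, hj l]; simp
    · rw [p3 j e, hj l]
  have up : ∀ j l, c l = 0 → N j l ≠ 0 → N' j l ≠ 0 := fun j l hl h0 => by
    by_cases e : j = a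
    · rw [e, p4, hl, sub_zero]; exact n1_ne (h.hs.1 a l) (sp l) (e ▸ h0)
    · rwa [p3 j e]
  have upd : ∀ j, N j j ≠ 0 → N' j j ≠ 0 := fun j h0 => by
    by_cases e : j = a
    · exact up j j (e ▸ ca) h0
    · rwa [p3 j e]
  refine ⟨N', ⟨?_, h.eq.trans p1, fun j hj => ⟨fun hs => src j ((h.keep j hj).1 hs),
    fun hs => snk j ((h.keep j hj).2 hs)⟩, (p3 z ha.symm).trans h.row, p2,
    ⟨fun j hj => (h.inv.out j hj).imp (snk j) (up j z cz),
      fun j hj => (h.inv.inn j hj).imp (src j) fun h' => ⟨by rw [p3 z ha.symm]; exact h'.1,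
        upd j h'.2⟩, h.inv.ex.imp fun j h' => ⟨h'.1, upd j h'.2⟩⟩,
    fun u l hul => ?_, fun i => ?_, q1, fun j hj => ?_, fun j hj => ?_⟩, p3, fun l hl hal => ?_⟩
  · obtain ⟨g, hg, e⟩ := h.g
    refine ⟨tv (Pi.single a 1) c * g, mul_mem (row_mem ca fun j =>
      xe_mem_Hn _ _ (mem_tI.2 (cL j))) hg, ?_⟩
    rw [Units.val_mul, mul_assoc, ← e, tv_val (by simpa using ca), add_mul, one_mul,
      vecMulVec_mul]
    ext1 u l
    by_cases e : u = a
    · simp only [e, Matrix.add_apply, Matrix.sub_apply, vecMulVec_apply, Pi.single_eq_same,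
        one_mul, p4, vecMul_sub, vecMul_one, Pi.sub_apply]
      rw [show (c ᵥ* N) l = ∑ u, c u * N u l from rfl]; ring
    · simp [vecMulVec_apply, e, p3 u e]
  · by_cases e : u = a
    · rw [e, p4]; exact ((h.off a l (e ▸ hul)).sub (cL l)).add (sL l)
    · rw [p3 u e]; exact h.off u l hul
  · by_cases e : i = a
    · have := (h.dia a).sub (sL a)
      rw [e, p4, ca]
      convert this using 1
      ring
    · rw [p3 i e]; exact h.dia i
  · have hi : 0 ≤ η⁻¹ := inv_nonneg.2 hη.le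
    by_cases e : j = a
    · rw [e, p4, cz, sub_zero]
      have t1 : ∑ u, nz ρ (c u * N u z) ≤ ∑ u, nz ρ (c u) * C := sum_le_sum fun u _ => by
        by_cases e : u = z
        · simp [e, cz, nz_zero]
        · exact (nz_mul _ _).trans (mul_le_mul_of_nonneg_left (h.col u e) (nz_nonneg _))
      have t2 : ∑ u, nz ρ (c u) ≤ η⁻¹ := by
        rw [← mul_one η⁻¹, le_inv_mul_iff₀ hη]; exact q2.trans s1
      rw [← sum_mul] at t1
      have t3 := mul_le_mul_of_nonneg_right t2 hC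
      have t4 := nz_add (ρ := ρ) (N a z) (∑ u, c u * N u z)
      have t5 := nz_sum ρ univ fun u => c u * N u z
      have t6 := h.col a ha
      linarith
    · rw [p3 j e]
      exact (h.col j hj).trans (le_mul_of_one_le_right hC (by linarith))
  · refine (h.low j hj).imp_right fun h' => ?_
    by_cases e : j = a
    · rw [e, p4, cz, sub_zero, add_sub_right_comm]; exact n1_add (e ▸ h') (sp z)
    · rwa [p3 j e]
  · have hm : l ∈ (univ.erase z).erase a := by simp [hl, hal.symm]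
    exact ⟨p11 l hm, (single_le_sum (f := fun l => nz ρ (N' a l)) (fun _ _ => nz_nonneg _)
      hm).trans (q3.trans (mul_le_of_le_one_right (pow_nonneg e1 n) s1))⟩

theorem Ok.all (hP : PushStmt) (hρ : 0 ≤ ρ) (hη : 0 < η) (hC : 0 ≤ C)
    (h : Ok ρ η z L dg w N₀ ξ C N) (n : ℕ) (T : Finset I) :
    ∃ N', Ok ρ η z L dg w N₀ ξ (C * (1 + η⁻¹) ^ T.card) N' ∧ ∀ a ∈ T, a ≠ z →
      ∀ l, l ≠ z → a ≠ l → X ^ n ∣ N' a l ∧ nz ρ (N' a l) ≤ (1 - η) ^ n := by
  induction T using Finset.induction_on with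
  | empty => exact ⟨N, by simpa using h, by simp⟩
  | insert a T ha ih =>
    obtain ⟨N', h1, h2⟩ := ih
    have hi : 0 ≤ η⁻¹ := inv_nonneg.2 hη.le
    have h0 : 0 ≤ C * (1 + η⁻¹) ^ T.card := by positivity
    rw [card_insert_of_notMem ha, pow_succ, ← mul_assoc]
    by_cases e : a = z
    · refine ⟨N', h1.mono (le_mul_of_one_le_right h0 (by linarith)), fun b hb hz => ?_⟩
      exact h2 b ((mem_insert.1 hb).resolve_left fun e' => hz (e'.trans e)) hz
    · obtain ⟨N'', h3, h4, h5⟩ := h1.step hP hρ hη h0 e n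
      refine ⟨N'', h3, fun b hb hz => ?_⟩
      by_cases e' : b = a
      · rw [e']; exact h5
      · rw [h4 b e']; exact h2 b ((mem_insert.1 hb).resolve_left e') hz

/-- the monomials that are pushed through the hub -/
theorem pick {ε : ℝ} {W : ℤ[X]} (hρ : 0 ≤ ρ) (hε : 0 ≤ ε) (h : NF ρ η ε z L dg N)
    (hW : N1 (N z z - W)) (j : I) : ∃ (b : ℤ[X]) (m : ℕ), (j = z → b = 0) ∧ N1 b ∧
      N1 (N j z - b) ∧ X ^ L ∣ b ∧ b.coeff 0 = 0 ∧ nz ρ b ≤ ε ∧ (N j z = 0 → b = 0) ∧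
      (j ≠ z → N j z ≠ 0 → N j z - b + b * N z z ≠ 0 ∧ N1 (N j z - b + b * N z z - X ^ m * W)) := by
  by_cases h1 : j ≠ z ∧ N j z ≠ 0 ∧ N z z ≠ 0
  · obtain ⟨m, h2, h3⟩ := ex_mono (h.hs.1 j z) h1.2.1
    have h4 := h.off j z h1.1
    refine ⟨X ^ m, m, fun e => absurd e h1.1, n1_pow m, h3, pow_dvd_pow _ ?_, ?_, ?_,
      fun e => absurd e h1.2.1, fun _ _ => ⟨?_, ?_⟩⟩
    · exact not_lt.1 fun hm => h2 (X_pow_dvd_iff.1 h4.1 m hm)
    · rw [coeff_X_pow, if_neg]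
      rintro rfl
      exact h2 (congrFun (congrFun h.hs.2 j) z)
    · rw [nz_X_pow hρ]; exact (pow_le_nz hρ h2).trans h4.2
    · rw [add_comm]
      exact n1_ne (n1_mul (n1_pow m) (h.hs.1 z z)) h3
        (mul_ne_zero (pow_ne_zero _ X_ne_zero) h1.2.2)
    · rw [add_sub_assoc, ← mul_sub]; exact n1_add h3 (n1_mul (n1_pow m) hW)
  · refine ⟨0, 0, fun _ => rfl, fun _ => by simp, by rw [sub_zero]; exact h.hs.1 j z, dvd_zero _,
      rfl, (nz_zero ρ).le.trans hε, fun _ => rfl, fun h2 h3 => ⟨by simpa using h3, ?_⟩⟩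
    have h4 : N z z = 0 := by
      by_contra h4
      exact h1 ⟨h2, h3, h4⟩
    have := n1_add (h.hs.1 j z) hW
    rw [h4] at this
    simpa [sub_eq_add_neg] using this

theorem start (hM : Moves) {ε K : ℝ} {W : ℤ[X]} (hρ : 0 ≤ ρ) (hε : 0 ≤ ε) (hε1 : ε ≤ 1)
    (hε2 : 4 * Fintype.card I * ε ≤ η) (h : NF ρ η ε z L dg N) (hr : act (1 - N) ξ = 0)
    (hW : N1 (N z z - W)) (hK : nz ρ (N z z) ≤ K) : ∃ (m : I → ℕ) (N' : Matrix I I ℤ[X]),
      Ok ρ (η / 2) z L dg (fun j => X ^ m j * W) N ξ (2 + K) N' := by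
  choose b m p1 p2 p3 p4 p5 p6 p7 p8 using pick hρ hε h hW
  have bz : b z = 0 := p1 z rfl
  let N' : Matrix I I ℤ[X] := of fun j l => N j l - (if l = z then b j else 0) + b j * N z l
  have ez : ∀ j, N' j z = N j z - b j + b j * N z z := fun j => by simp [N']
  have en : ∀ j l, l ≠ z → N' j l = N j l + b j * N z l := fun j l hl => by simp [N', hl]
  have e0 : ∀ j, b j = 0 → N' j = N j := fun j hj => by ext1 l; simp [N', hj]
  have eq : 1 - N' = (1 + vecMulVec b (Pi.single z 1)) * (1 - N) := by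
    rw [add_mul, one_mul, vecMulVec_mul]
    ext1 j l
    by_cases e : l = z
    · simp [e, ez, vecMulVec_apply]; ring
    · simp [en j l e, vecMulVec_apply, one_apply_ne (Ne.symm e)]; ring
  have hs : Hs N' := by
    refine ⟨fun j l => ?_, ?_⟩
    · by_cases e : l = z
      · rw [e, ez]; exact n1_add (p3 j) (n1_mul (p2 j) (h.hs.1 z z))
      · rw [en j l e]; exact n1_add (h.hs.1 j l) (n1_mul (p2 j) (h.hs.1 z l))
    · ext j l
      have : (N j l).coeff 0 = 0 := congrFun (congrFun h.hs.2 j) l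
      change (N' j l).coeff 0 = 0
      by_cases e : l = z
      · rw [e, ez, coeff_add, coeff_sub, mul_coeff_zero, p5, ← e, this]; simp
      · rw [en j l e, coeff_add, mul_coeff_zero, p5, this]; simp
  have src : ∀ l, Src N l → Src N' l := fun l hl u => by
    by_cases e : l = z
    · rw [e0 u (p7 u (e ▸ hl u)), hl u]
    · rw [en u l e, hl u, hl z]; simp
  have snk : ∀ j, Snk N j → Snk N' j := fun j hj l => by rw [e0 j (p7 j (hj z)), hj l]
  have upd : ∀ j, j ≠ z → N j j ≠ 0 → N' j j ≠ 0 := fun j hj h0 => by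
    rw [en j j hj]; exact n1_ne (h.hs.1 j j) (n1_mul (p2 j) (h.hs.1 z j)) h0
  refine ⟨m, N', ⟨tv b (Pi.single z 1), col_mem bz fun j => xe_mem_Hn _ _ (mem_tI.2 (p4 j)),
    by rw [tv_val (by simpa using bz), eq]⟩, ?_, fun j _ => ⟨src j, snk j⟩, e0 z bz, hs,
    ⟨fun j hj => (h.inv.out j hj).imp (snk j) fun h' => ez j ▸ (p8 j hj h').1,
      fun j hj => (h.inv.inn j hj).imp (src j) fun h' => ⟨by rw [e0 z bz]; exact h'.1,
        upd j hj h'.2⟩, h.inv.ex.imp fun j h' => ⟨h'.1, upd j h'.1 h'.2⟩⟩,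
    fun u l hul => ?_, fun i => ?_, ⟨fun _ => one_pos, fun j hj => ?_⟩, fun j hj => ?_,
    fun j hj => (h.inv.out j hj).imp_right fun h' => ez j ▸ (p8 j hj h').2⟩
  · rw [Eq0, eq]
    refine hM.row G I _ 0 _ ξ (· ≠ z) (vp h.hs) hr (fun u l h' => ⟨?_, not_not.2 ?_⟩) (eq ▸ vp hs)
    · rintro rfl
      simp [vecMulVec_apply, bz] at h'
    · by_contra e
      simp [vecMulVec_apply, e] at h'
  · by_cases e : l = z
    · rw [e, ez]; exact ((h.off u z (e ▸ hul)).1.sub (p4 u)).add ((p4 u).mul_right _)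
    · rw [en u l e]; exact (h.off u l hul).1.add ((p4 u).mul_right _)
  · by_cases e : i = z
    · rw [e0 i (p1 i e)]; exact h.dia i
    · have := (h.dia i).sub ((p4 i).mul_right (N z i))
      rw [en i i e]
      convert this using 1
      ring
  · have e1 : 0 ≤ 1 - η := (nz_nonneg _).trans (h.lt j hj)
    have t : ∀ l ∈ univ.erase z, nz ρ (N' j l) * 1 ≤ (if l = j then 1 - η else 0) + 2 * ε := by
      intro l hl
      have hl' := ne_of_mem_erase hl
      have a1 := nz_add (ρ := ρ) (N j l) (b j * N z l)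
      have a2 : nz ρ (b j * N z l) ≤ ε := (nz_mul _ _).trans
        ((mul_le_mul (p6 j) ((h.off z l hl'.symm).2.trans hε1) (nz_nonneg _) hε).trans_eq
          (mul_one ε))
      rw [en j l hl']
      split_ifs with e
      · have := h.lt j hj
        rw [e] at a1 a2 ⊢
        linarith
      · have := (h.off j l (Ne.symm e)).2
        linarith
    refine (sum_le_sum t).trans ?_
    rw [sum_add_distrib, sum_ite_eq', if_pos (mem_erase.2 ⟨hj, mem_univ j⟩), sum_const,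
      nsmul_eq_mul]
    have : ((univ.erase z).card : ℝ) ≤ Fintype.card I := by exact_mod_cast card_le_univ _
    nlinarith
  · have a1 := nz_add (ρ := ρ) (N j z - b j) (b j * N z z)
    have a2 := nz_sub (ρ := ρ) (N j z) (b j)
    have a3 : nz ρ (b j * N z z) ≤ K := (nz_mul _ _).trans
      ((mul_le_mul ((p6 j).trans hε1) hK (nz_nonneg _) zero_le_one).trans_eq (one_mul K))
    have a4 := (h.off j z hj).2
    have a5 := p6 j
    rw [ez]
    linarith

end Last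

theorem last_of (hM : Moves) (hP : PushStmt) : LastStmt := by
  intro I _ _ ρ η K hρ _ hη
  refine ⟨min 1 (η / (4 * (Fintype.card I + 1))), by positivity,
    (2 + K) * (1 + (η / 2)⁻¹) ^ Fintype.card I, ?_⟩
  intro G _ _ N ξ z θ τ L h dg hN hr hθ hτ hW hK
  have hK0 : 0 ≤ K := (nz_nonneg _).trans hK
  obtain ⟨m, N₁, h1⟩ := Last.start hM hρ.le (by positivity) (min_le_left _ _) (by
    refine (mul_le_mul_of_nonneg_left (min_le_right _ _) (by positivity)).trans ?_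
    rw [← mul_div_assoc, div_le_iff₀ (by positivity)]
    nlinarith) hN hr hW hK
  have hin : ∀ l, ∃ k : ℕ, N z l ≠ 0 → N1 (N z l - X ^ k) := fun l => by
    by_cases e : N z l = 0
    · exact ⟨0, fun h => absurd e h⟩
    · exact (Last.ex_mono (hN.hs.1 z l) e).imp fun _ h _ => h.2
  choose k hk using hin
  obtain ⟨M, hM1, hM2⟩ : ∃ M, (∀ j, m j ≤ M) ∧ ∀ j, k j ≤ M :=
    ⟨univ.sup m ⊔ univ.sup k, fun j => le_sup_of_le_left (le_sup (mem_univ j)),
      fun j => le_sup_of_le_right (le_sup (mem_univ j))⟩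
  obtain ⟨j₀, hj₀, -⟩ := hN.inv.ex
  have e1 : 0 ≤ 1 - η / 2 := (nz_nonneg _).trans (h1.entry hj₀ hj₀)
  obtain ⟨n, hn⟩ := exists_pow_lt_of_lt_one (show 0 < θ * τ ^ M by positivity)
    (show 1 - η / 2 < 1 by linarith)
  obtain ⟨N', h2, h3⟩ := h1.all hP hρ.le (half_pos hη) (by linarith) (M + 2 * h + n) univ
  obtain ⟨g, hg, e⟩ := h2.g
  have one : 1 ≤ (2 + K) * (1 + (η / 2)⁻¹) ^ Fintype.card I :=
    one_le_mul_of_one_le_of_one_le (by linarith) (one_le_pow₀ (le_add_of_nonneg_right (by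
      positivity)))
  refine ⟨N', g, M, hg, e, h2.eq, h2.keep, h2.row, ⟨h2.hs, h2.inv, fun u l hul =>
    ⟨h2.off u l hul, ?_⟩, h2.dia, fun j hj => h2.entry hj hj⟩,
    fun i hi => (h2.low i hi).imp (h2.keep i id).2 fun h' => ⟨m i, hM1 i, h'⟩,
    fun l hl => (hN.inv.inn l hl).imp (h2.keep l id).1 fun h' =>
      ⟨k l, hM2 l, h2.row ▸ hk l h'.1⟩, fun u l hu hl hul => ?_⟩
  · by_cases a : u = z
    · rw [a, h2.row]
      exact (hN.off z l (a ▸ hul)).2.trans ((min_le_left _ _).trans one)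
    by_cases b : l = z
    · rw [b]; exact h2.col u a
    · exact (h2.entry a b).trans (by linarith)
  · obtain ⟨a, b⟩ := h3 u (mem_univ u) hu l hl hul
    exact ⟨(pow_dvd_pow _ (Nat.le_add_right _ _)).trans a, b.trans
      ((pow_le_pow_of_le_one e1 (by linarith) (Nat.le_add_left _ _)).trans hn.le)⟩

end Pool.Agent.MP_993212_an.H18
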